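import Pool.Agent.Helper28.AD.Amp

/-!
# Decision trees of zero tests: error reduction and the number of positive answers

Here `h` bounds the number of positive answers on a path, and the depth of the trees is free.
-/

set_option autoImplicit false
set_option linter.unusedSectionVars false

namespace Pool.AD

open MvPolynomial Pool.Agent.Helper76.CDET Pool.MAJ

namespace DT

variable {N M : ℕ}

theorem ones_map (g : Fin N → Fin M) (a : Fin M → Bool) (t : DT N) :
    (t.map g).ones a = (t.ones fun v => a (g v)).image g := by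
  induction t with
  | leaf b => simp [map, ones]
  | node v t0 t1 h0 h1 =>
    rw [map, ones, ones, h0, h1]
    split_ifs
    · rw [Finset.image_insert]
    · rfl

theorem card_ones_map (g : Fin N → Fin M) (a : Fin M → Bool) (t : DT N) :
    ((t.map g).ones a).card ≤ (t.ones fun v => a (g v)).card := by
  rw [ones_map]
  exact Finset.card_image_le

theorem card_ones_bind (c0 c1 t : DT M) (a : Fin M → Bool) {k : ℕ} (h0 : (c0.ones a).card ≤ k)
    (h1 : (c1.ones a).card ≤ k) : ((bind c0 c1 t).ones a).card ≤ (t.ones a).card + k := by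
  have h2 : (bind c0 c1 t).ones a ⊆ t.ones a ∪ (if t.eval a = true then c1.ones a else c0.ones a) := by
    clear h0 h1
    induction t with
    | leaf b =>
      rw [bind, ones, eval, Finset.empty_union]
      split_ifs <;> exact Finset.Subset.refl _
    | node v t0 t1 i0 i1 =>
      rw [bind, ones, ones, eval]
      by_cases hv : a v = true
      · rw [if_pos hv, if_pos hv, if_pos hv, Finset.insert_union]
        exact Finset.insert_subset_insert v i1
      · rw [if_neg hv, if_neg hv, if_neg hv]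
        exact i0
  refine (Finset.card_le_card h2).trans ((Finset.card_union_le _ _).trans ?_)
  refine Nat.add_le_add_left ?_ _
  split_ifs
  · exact h1
  · exact h0

theorem card_ones_thr (a : Fin M → Bool) (L : List (DT M)) (K h : ℕ)
    (hL : ∀ t ∈ L, (t.ones a).card ≤ h) : ((thr L K).ones a).card ≤ L.length * h := by
  induction L generalizing K with
  | nil =>
    rw [thr, ones, Finset.card_empty]
    exact Nat.zero_le _
  | cons t ts ih =>
    rw [thr, List.length_cons, add_mul, one_mul, add_comm]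
    have h1 : ∀ K, ((thr ts K).ones a).card ≤ ts.length * h := fun K =>
      ih K fun s hs => hL s (List.mem_cons_of_mem _ hs)
    exact (card_ones_bind _ _ _ a (h1 _) (h1 _)).trans
      (Nat.add_le_add_right (hL t List.mem_cons_self) _)

theorem card_ones_thrFn (R K h : ℕ) (t : Fin R → DT N) (ht : ∀ k a, ((t k).ones a).card ≤ h)
    (a : Fin (R * N) → Bool) : ((thrFn R K t).ones a).card ≤ R * h := by
  have h1 := card_ones_thr a (List.ofFn fun k => (t k).map fun v => finProdFinEquiv (k, v)) K h (by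
    intro s hs
    obtain ⟨k, rfl⟩ := List.mem_ofFn.1 hs
    exact (card_ones_map _ _ _).trans (ht k _))
  rwa [List.length_ofFn] at h1

end DT

/-- **error reduction for adaptive algorithms**, with the number of positive answers on a path: the number `R` of runs depends only on `α` and
`δ` -/
theorem amplify_ones (α δ : ℝ) (hα : α < 1) (hδ : 0 < δ) : ∃ R : ℕ, 1 ≤ R ∧
    ∀ (e1 e2 : ℝ), 0 ≤ e1 → 0 ≤ e2 → e1 + e2 ≤ α →
    ∀ (F : Type) [Field F] (V Ya Om : Type) [DecidableEq V] [Fintype Om] (N : ℕ) (w : Om → ℝ)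
      (_ : ∀ i, 0 ≤ w i) (_ : ∑ i, w i = 1) (f : Om → Fin N → MvPolynomial (V ⊕ Ya) F)
      (tr : Om → DT N), ∃ (Om' : Type) (_ : Fintype Om') (w' : Om' → ℝ)
      (f' : Om' → Fin (R * N) → MvPolynomial (V ⊕ Ya) F) (tr' : Om' → DT (R * N)),
      (∀ i, 0 ≤ w' i) ∧ ∑ i, w' i = 1 ∧ (∀ i v, ∃ j u, f' i v = f j u) ∧
      (∀ h, (∀ i a, ((tr i).ones a).card ≤ h) → ∀ i a, ((tr' i).ones a).card ≤ R * h) ∧
      ∀ S : Finset V,
        (Pr w (fun i => (tr i).eval (ans (f i) S) = false) ≤ e1 →
          Pr w' (fun i => (tr' i).eval (ans (f' i) S) = false) ≤ δ) ∧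
        (Pr w (fun i => (tr i).eval (ans (f i) S) = true) ≤ e2 →
          Pr w' (fun i => (tr' i).eval (ans (f' i) S) = true) ≤ δ) := by
  classical
  set g : ℝ := (1 - α) / 2 with hg
  have hg0 : 0 < g := by rw [hg]; linarith
  have h3 : Real.exp (-(g ^ 3 / 2)) < 1 := Real.exp_lt_one_iff.2 (by
    have : 0 < g ^ 3 / 2 := by positivity
    linarith)
  obtain ⟨N0, hN0⟩ := exists_pow_lt_of_lt_one hδ h3
  have hN : ∀ N, N0 ≤ N → Real.exp (-(g ^ 3 / 2)) ^ N ≤ δ := fun N hN =>
    (pow_le_pow_of_le_one (Real.exp_pos _).le h3.le hN).trans hN0.le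
  set R : ℕ := max N0 1 with hR
  have hR0 : N0 ≤ R := le_max_left _ _
  have hR1 : 1 ≤ R := le_max_right _ _
  have hRR : (1 : ℝ) ≤ R := by exact_mod_cast hR1
  refine ⟨R, hR1, ?_⟩
  intro e1 e2 h1 h2 he F _ V Ya Om _ _ N w hw0 hw1 f tr
  set θ : ℝ := (1 - e1 + e2) / 2 with hθ
  have hθ0 : 0 < θ := by rw [hθ]; linarith
  have hθ1 : θ ≤ 1 := by rw [hθ]; linarith
  have hθ2 : e2 + g ≤ θ := by rw [hθ, hg]; linarith
  have hθ3 : e1 + g ≤ 1 - θ := by rw [hθ, hg]; linarith
  set K : ℕ := ⌈θ * R⌉₊ with hKdef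
  have hK1 : θ * R ≤ K := Nat.le_ceil _
  have hK2 : (K:ℝ) < θ * R + 1 := Nat.ceil_lt_add_one (by positivity)
  have hKN : K ≤ R := by
    refine Nat.ceil_le.2 ?_
    nlinarith
  have hK3 : (1 - θ) * R ≤ ((R - K + 1 : ℕ) : ℝ) := by
    rw [Nat.cast_add, Nat.cast_sub hKN, Nat.cast_one]
    linarith
  have hW0 : ∀ ω : Fin R → Om, 0 ≤ ∏ k, w (ω k) :=
    fun ω => Finset.prod_nonneg fun k _ => hw0 _
  have hexp : ∀ {p κ : ℝ}, 0 ≤ p → p + g ≤ κ → κ ≤ 1 →
      Real.exp (-((κ - p) * (κ / (1 + κ - p) - p))) ^ R ≤ δ := by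
    intro p κ hp hpκ hκ
    refine le_trans ?_ (hN R hR0)
    refine pow_le_pow_left₀ (Real.exp_pos _).le (Real.exp_le_exp.2 ?_) R
    have := rate_ge hp hg0 hpκ hκ
    linarith
  have hrun : ∀ (ω : Fin R → Om) (S : Finset V),
      (DT.thrFn R K fun k => tr (ω k)).eval
        (ans (fun v : Fin (R * N) => f (ω (finProdFinEquiv.symm v).1)
          (finProdFinEquiv.symm v).2) S) = true ↔
      K ≤ (Finset.univ.filter fun k => (tr (ω k)).eval (ans (f (ω k)) S) = true).card := by
    intro ω S
    rw [DT.eval_thrFn]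
    have h4 : ∀ k, (fun v => ans (fun v : Fin (R * N) => f (ω (finProdFinEquiv.symm v).1)
        (finProdFinEquiv.symm v).2) S (finProdFinEquiv (k, v))) = ans (f (ω k)) S := by
      intro k
      funext v
      unfold ans
      simp only [Equiv.symm_apply_apply]
    simp only [h4]
  refine ⟨Fin R → Om, inferInstance, fun ω => ∏ k, w (ω k),
    fun ω v => f (ω (finProdFinEquiv.symm v).1) (finProdFinEquiv.symm v).2,
    fun ω => DT.thrFn R K fun k => tr (ω k), hW0, ?_, fun ω v => ⟨_, _, rfl⟩,
    fun h hh ω a => DT.card_ones_thrFn R K h _ (fun k a => hh _ a) a, fun S => ⟨?_, ?_⟩⟩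
  · have h4 := Finset.prod_univ_sum (fun _ : Fin R => (Finset.univ : Finset Om))
      (fun _ i => w i)
    rw [Fintype.piFinset_univ] at h4
    rw [← h4, hw1, Finset.prod_const_one]
  · intro h
    refine le_trans (Pr_mono hW0 fun ω h1 => ?_) ((tail_le w hw0 hw1
      (fun i => (tr i).eval (ans (f i) S) = false) h1 (by linarith) (by linarith) h hK3).trans
      (hexp h1 hθ3 (by linarith)))
    by_contra h3
    rw [not_le] at h3
    have h4 := Finset.card_filter_add_card_filter_not (s := (Finset.univ : Finset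
      (Fin R))) (fun k => (tr (ω k)).eval (ans (f (ω k)) S) = false)
    rw [Finset.card_univ, Fintype.card_fin] at h4
    have h6 := (hrun ω S).2 (by
      have h5 : (Finset.univ.filter fun k => (tr (ω k)).eval (ans (f (ω k)) S) = true).card =
        (Finset.univ.filter fun k => ¬ (tr (ω k)).eval (ans (f (ω k)) S) = false).card := by
        congr 1
        refine Finset.filter_congr fun k _ => ?_
        rw [Bool.not_eq_false]
      rw [h5]
      omega)
    rw [h6] at h1
    exact absurd h1 (by simp)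
  · intro h
    refine le_trans (Pr_mono hW0 fun ω h1 => ?_) ((tail_le w hw0 hw1
      (fun i => (tr i).eval (ans (f i) S) = true) h2 (by linarith) hθ1 h hK1).trans
      (hexp h2 hθ2 hθ1))
    exact (hrun ω S).1 h1


end Pool.AD
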