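import Pool.Agent.Helper10.AD.Main

/-!
# Decision trees of zero tests: only the positive answers count

In the machine of `Helper10/AD/Main.lean` the depth of the trees is used only to bound the number
of positive answers on a path. Here `h` bounds this number, and the depth is free.
-/

set_option autoImplicit false
set_option linter.unusedSectionVars false

namespace Pool.AD

open Finset hiding sup
open MvPolynomial Pool.SDL Pool.Agent.SDet Pool.Agent.Helper76 Pool.Agent.Helper76.CDET Pool.GT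
open Pool.RT (Pr Pr_eq)
open scoped ENNReal BigOperators

/-- the number of small sets -/
theorem card_small (N h : ℕ) :
    ((Finset.univ.powerset.filter fun U : Finset (Fin N) => U.card ≤ h)).card ≤ (N + 1) ^ h := by
  classical
  have h1 : (Finset.univ.powerset.filter fun U : Finset (Fin N) => U.card ≤ h) ⊆
      (Finset.univ : Finset (Fin h → Option (Fin N))).image fun u =>
        Finset.univ.filter fun v => ∃ i, u i = some v := by
    intro U hU
    have hc := (Finset.mem_filter.1 hU).2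
    rw [Finset.mem_image]
    refine ⟨fun i => if hi : i.1 < U.card then some (U.equivFin.symm ⟨i.1, hi⟩).1 else none,
      Finset.mem_univ _, ?_⟩
    ext v
    rw [Finset.mem_filter]
    constructor
    · rintro ⟨-, i, hi⟩
      simp only at hi
      split_ifs at hi with h2
      rw [← Option.some.inj hi]
      exact (U.equivFin.symm ⟨i.1, h2⟩).2
    · intro hv
      refine ⟨Finset.mem_univ _, ⟨(U.equivFin ⟨v, hv⟩).1,
        lt_of_lt_of_le (U.equivFin ⟨v, hv⟩).2 hc⟩, ?_⟩
      simp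
  refine (Finset.card_le_card h1).trans (Finset.card_image_le.trans (le_of_eq ?_))
  rw [Finset.card_univ, Fintype.card_fun, Fintype.card_option, Fintype.card_fin, Fintype.card_fin]


section
variable {F : Type} [Field F] {V Ya : Type} [DecidableEq V] [Fintype V]

/-- THE MACHINE for random decision trees of zero tests, of any depth, with at most `h` positive
answers on every path -/
theorem adapt_ones {Ω : Type} [Fintype Ω] (w : Ω → ℝ) (hw0 : ∀ i, 0 ≤ w i)
    (hw1 : ∑ i, w i = 1) {N h : ℕ} (t : Ω → DT N) (ht : ∀ ω a, ((t ω).ones a).card ≤ h)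
    (f : Ω → Fin N → MvPolynomial (V ⊕ Ya) F)
    (P : Finset V → Prop) (hmono : ∀ S S' : Finset V, S ⊆ S' → P S → P S') (ε1 ε2 : ℝ)
    (hyes : ∀ S, P S → Pr w (fun ω => (t ω).eval (ans (f ω) S) = false) ≤ ε1)
    (hno : ∀ S, ¬ P S → Pr w (fun ω => (t ω).eval (ans (f ω) S) = true) ≤ ε2)
    {J D l B : ℕ} (hJ : 1 ≤ J) (hD : 1 ≤ D) (hl : 1 ≤ l) (hB : 1 ≤ B)
    (gad : BitsGadget P (J * D) l B)
    (lam L : ℕ) (hlam : ∀ ω v, ∀ μ ∈ (f ω v).support, ∀ e, μ (Sum.inl e) ≤ lam)
    (hL : D * (lam * h) ≤ L)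
    (β : ℝ) (hβ : 0 < β) (τ T0 : ℕ) (hτ : (T0 : ℝ) + β * (2 * D * l * B) ≤ τ * B)
    {l0 : ℕ} {Q R : ℝ≥0∞} (hQ : Q < 1)
    (hR : ∀ ω, ∀ U : Finset (Fin N), U.card ≤ h → ∀ D' ≤ L,
      Pool.RT.SmallK (∏ v ∈ U, f ω v) D' l0 Q R)
    (hT0 : (2 : ℝ≥0∞) ^ (2 * D * l) * Q ^ T0 ≤ 1 / 2) :
    Q ^ l0 * ENNReal.ofReal ((1 - (ε1 + ε2 / β + N / J)) * 2 ^ (2 * D * l)) ≤
      2 * R * ((N + 1) ^ h * ((L + 1) * ∑ j ∈ Finset.range τ, (2 * D * l).choose j) : ℕ) := by
  classical
  obtain ⟨X, Y, Z, hinj, hX, hY, h1, h2⟩ := gad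
  have hPc : ∀ (c : Wd (J * D) l) k, P (chain X Y Z c k) := by
    intro c k
    obtain ⟨S, hS, hS1⟩ := h2 c
    refine hmono S _ ?_ hS
    intro e he
    rw [mem_chain]
    rcases hS1 e he with h | ⟨h, i, j, rfl⟩ | ⟨b, rfl⟩
    · exact Or.inl h
    · exact Or.inr (Or.inl ⟨_, by rw [mem_Mw], rfl⟩)
    · exact Or.inr (Or.inr (Or.inl ⟨_, (mem_Yw c _).2 ⟨b, rfl⟩, rfl⟩))
  have hNc : ∀ (c : Wd (J * D) l) k, ∀ x ∈ Mw B c, ¬ P (chain X Y Z c k \ {X x}) := by
    intro c k x hx hP
    have h3 := (h1 c _ hP (by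
      intro e he
      rw [Finset.mem_sdiff, mem_chain] at he
      rcases he.1 with h | ⟨x', _, rfl⟩ | ⟨y, hy, rfl⟩ | ⟨x', _, rfl⟩
      · exact Or.inl h
      · exact Or.inr (Or.inl ⟨_, rfl⟩)
      · obtain ⟨b, rfl⟩ := (mem_Yw c y).1 hy
        exact Or.inr (Or.inr ⟨b, rfl⟩)
      · exact Or.inr (Or.inl ⟨_, rfl⟩))).1 x.1.1 x.1.2 x.2.2
    have hxx : ((x.1.1, x.1.2), (c x.1.1 x.1.2, x.2.2)) = x := by
      rw [mem_Mw] at hx
      rw [← hx]
    rw [hxx, Finset.mem_sdiff] at h3
    exact h3.2 (Finset.mem_singleton_self _)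
  -- elements of the cell
  obtain ⟨xe, hxe⟩ : ∃ xe : Fin J → Wd (J * D) l → ((Fin D × Bool) × Fin l) × Fin B →
      ((Fin (J * D) × Bool) × Fin l) × (Bool × Fin B),
      ∀ j c z, xe j c z = xin j (z.1, (cellOf j c z.1.1 z.1.2, z.2)) := ⟨_, fun _ _ _ => rfl⟩
  have hxeM : ∀ j c z, xe j c z ∈ Mw B c := by
    intro j c z
    rw [hxe, mem_Mw]
    rfl
  have hcardz : Fintype.card (((Fin D × Bool) × Fin l) × Fin B) = 2 * D * l * B := by
    simp only [Fintype.card_prod, Fintype.card_fin, Fintype.card_bool]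
    ring
  have hE : Nonempty (((Fin D × Bool) × Fin l) × Fin B) :=
    ⟨(((⟨0, hD⟩, false), ⟨0, hl⟩), ⟨0, hB⟩)⟩
  obtain ⟨ω, j, G, hGcard, hGood⟩ := good_pair (E := ((Fin D × Bool) × Fin l) × Fin B) w hw0 hw1 hJ
    (fun ω c k => (t ω).eval (ans (f ω) (chain X Y Z c k)))
    (fun ω c k => ans (f ω) (chain X Y Z c k) ≠ ans (f ω) (chain X Y Z c (k + 1)))
    (fun ω c j z => (t ω).eval (ans (f ω) (chain X Y Z c (j.1 + 1) \ {X (xe j c z)})))
    ε1 ε2 β hβ N (fun c k => hyes _ (hPc c k))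
    (fun ω c => by
      have h3 := chain_changes (f ω) J (fun k => chain X Y Z c k) fun k => chain_mono X Y Z c k
      convert h3)
    (fun c j z => hno _ (hNc c (j.1 + 1) _ (hxeM j c z)))
  obtain ⟨γ, hγ⟩ := exists_gamma j G
  set G1 : Finset (Wd D l) := Finset.univ.filter fun c => comb j γ c ∈ G with hG1
  obtain ⟨G2, hG2, U, hU, hcard2⟩ := exists_value G1
    (fun c => (t ω).ones (ans (f ω) (chain X Y Z (comb j γ c) j.1)))
    (Finset.univ.powerset.filter fun U : Finset (Fin N) => U.card ≤ h) ((N + 1) ^ h)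
    (card_small N h)
    (fun c _ => Finset.mem_filter.2 ⟨Finset.mem_powerset.2 (Finset.subset_univ _), ht ω _⟩)
  have hG2G : ∀ c ∈ G2, comb j γ c ∈ G := by
    intro c hc
    exact (Finset.mem_filter.1 (hG2 hc)).2
  -- the product
  set g : MvPolynomial (V ⊕ Ya) F := ∏ v ∈ U, f ω v with hg
  have hg0 : ∀ c ∈ G2, restr (chain X Y Z (comb j γ c) j.1) g ≠ 0 := by
    intro c hc
    rw [hg, restr_prod_ne_zero]
    intro v hv
    rw [← hU c hc] at hv
    exact DT.ones_pos _ _ v hv
  have hgout : ∀ c ∈ G2, ∀ S ⊆ chain X Y Z (comb j γ c) (j.1 + 1), restr S g ≠ 0 →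
      (t ω).eval (ans (f ω) S) = true := by
    intro c hc S hS h0
    have h3 := hGood _ (hG2G c hc)
    have h4 : ans (f ω) (chain X Y Z (comb j γ c) j.1) =
        ans (f ω) (chain X Y Z (comb j γ c) (j.1 + 1)) := by
      have := h3.2.1
      push Not at this
      exact this
    rw [← h3.1]
    refine eval_of_prod (f ω) (t ω) hS ?_
    rw [← h4, hU c hc]
    exact h0
  -- U is small
  have hUh : G2.Nonempty → U.card ≤ h := by
    rintro ⟨c, hc⟩
    rw [← hU c hc]
    exact ht ω _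
  have hcardW : (Fintype.card (Wd D l) : ℝ) = 2 ^ (2 * D * l) := by
    rw [Fintype.card_fun, Fintype.card_fun, Fintype.card_prod, Fintype.card_bool,
      Fintype.card_fin, Fintype.card_fin, ← pow_mul]
    push_cast
    congr 1
    ring
  have hcard1 : (1 - (ε1 + ε2 / β + N / J)) * 2 ^ (2 * D * l) ≤ ((N + 1) ^ h * G2.card : ℕ) := by
    have hW : (0 : ℝ) < Fintype.card (Wd (J * D) l) := by
      have : Nonempty (Wd (J * D) l) := ⟨fun _ _ => false⟩
      exact_mod_cast Fintype.card_pos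
    have h3 : (Fintype.card (Wd D l) * G.card : ℝ) ≤ Fintype.card (Wd (J * D) l) * G1.card := by
      exact_mod_cast hγ
    have h4 : (G1.card : ℝ) ≤ ((N + 1) ^ h * G2.card : ℕ) := by exact_mod_cast hcard2
    have hD0 : (0 : ℝ) ≤ Fintype.card (Wd D l) := Nat.cast_nonneg _
    have h5 : Fintype.card (Wd (J * D) l) * ((1 - (ε1 + ε2 / β + N / J)) * 2 ^ (2 * D * l)) ≤
        Fintype.card (Wd (J * D) l) * (((N + 1) ^ h * G2.card : ℕ) : ℝ) := by
      calc Fintype.card (Wd (J * D) l) * ((1 - (ε1 + ε2 / β + N / J)) * 2 ^ (2 * D * l))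
          = Fintype.card (Wd D l) * ((1 - (ε1 + ε2 / β + N / J)) *
            Fintype.card (Wd (J * D) l)) := by
            rw [hcardW]
            ring
        _ ≤ Fintype.card (Wd D l) * G.card := mul_le_mul_of_nonneg_left hGcard hD0
        _ ≤ Fintype.card (Wd (J * D) l) * G1.card := h3
        _ ≤ _ := mul_le_mul_of_nonneg_left h4 hW.le
    exact le_of_mul_le_mul_left h5 hW
  rcases G2.eq_empty_or_nonempty with hempty | hnonempty
  · rw [hempty, Finset.card_empty, Nat.mul_zero, Nat.cast_zero] at hcard1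
    rw [ENNReal.ofReal_eq_zero.2 hcard1, mul_zero]
    exact zero_le
  have hUh' := hUh hnonempty
  -- monomials
  obtain ⟨μ, hμ⟩ : ∃ μ : Wd D l → (V ⊕ Ya) →₀ ℕ, ∀ c ∈ G2,
      μ c ∈ g.support ∧ CDET.sup (μ c) ⊆ chain X Y Z (comb j γ c) j.1 := by
    have h3 : ∀ c : Wd D l, ∃ ν : (V ⊕ Ya) →₀ ℕ, c ∈ G2 → 
        ν ∈ g.support ∧ CDET.sup ν ⊆ chain X Y Z (comb j γ c) j.1 := by
      intro c
      by_cases hc : c ∈ G2
      · obtain ⟨ν, hν1, hν2⟩ := exists_sup g (fun S => restr S g ≠ 0) (fun S => Iff.rfl) _ (hg0 c hc)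
        exact ⟨ν, fun _ => ⟨hν1, hν2⟩⟩
      · exact ⟨0, fun h => absurd h hc⟩
    choose μ hμ using h3
    exact ⟨μ, hμ⟩
  -- the local gadget
  have hinjX : Function.Injective X := fun a b hab => by
    have := @hinj (Sum.inl a) (Sum.inl b) hab
    simpa using this
  have hinjY : Function.Injective Y := fun a b hab => by
    have := @hinj (Sum.inr a) (Sum.inr b) hab
    simpa using this
  have hXY : ∀ x y, X x ≠ Y y := fun x y hxy => by
    have := @hinj (Sum.inl x) (Sum.inr y) hxy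
    simp at this
  set Z' : Finset V := Z ∪ (Finset.univ.filter fun x :
      ((Fin (J * D) × Bool) × Fin l) × (Bool × Fin B) => (cl x.1.1.1).1 < j.1).image X ∪
      (Finset.univ.filter fun x : ((Fin (J * D) × Bool) × Fin l) × (Bool × Fin B) =>
        cl x.1.1.1 ≠ j ∧ x ∈ Mw B γ).image X ∪
      (Finset.univ.filter fun y : Fin (J * D) × (Fin l → Bool) × (Fin l → Bool) =>
        cl y.1 ≠ j ∧ y ∈ Yw γ).image Y with hZ'
  have hZm : ∀ e, e ∈ Z' ↔ e ∈ Z ∨ (∃ x, (cl x.1.1.1).1 < j.1 ∧ e = X x) ∨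
      (∃ x, cl x.1.1.1 ≠ j ∧ x ∈ Mw B γ ∧ e = X x) ∨
      ∃ y, cl y.1 ≠ j ∧ y ∈ Yw γ ∧ e = Y y := by
    intro e
    rw [hZ']
    simp only [Finset.mem_union, Finset.mem_image, Finset.mem_filter, Finset.mem_univ, true_and]
    constructor
    · rintro (((h | ⟨x, hx, rfl⟩) | ⟨x, hx, rfl⟩) | ⟨y, hy, rfl⟩)
      · exact Or.inl h
      · exact Or.inr (Or.inl ⟨x, hx, rfl⟩)
      · exact Or.inr (Or.inr (Or.inl ⟨x, hx.1, hx.2, rfl⟩))
      · exact Or.inr (Or.inr (Or.inr ⟨y, hy.1, hy.2, rfl⟩))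
    · rintro (h | ⟨x, hx, rfl⟩ | ⟨x, hx1, hx2, rfl⟩ | ⟨y, hy1, hy2, rfl⟩)
      · exact Or.inl (Or.inl (Or.inl h))
      · exact Or.inl (Or.inl (Or.inr ⟨x, hx, rfl⟩))
      · exact Or.inl (Or.inr ⟨x, ⟨hx1, hx2⟩, rfl⟩)
      · exact Or.inr ⟨y, ⟨hy1, hy2⟩, rfl⟩
  -- the sets of the chain and the local gadget
  have hch1 : ∀ c e, e ∈ chain X Y Z (comb j γ c) j.1 →
      e ∈ Z' ∨ (∃ x ∈ Mw B c, e = X (xin j x)) ∨ ∃ y ∈ Yw c, e = Y (yin j y) := by
    intro c e he
    rw [mem_chain] at he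
    rcases he with h | ⟨x, hx, rfl⟩ | ⟨y, hy, rfl⟩ | ⟨x, hx, rfl⟩
    · exact Or.inl ((hZm _).2 (Or.inl h))
    · by_cases hc : cl x.1.1.1 = j
      · obtain ⟨x', rfl⟩ := exists_xin j x hc
        exact Or.inr (Or.inl ⟨x', (xin_mem j γ c x').1 hx, rfl⟩)
      · exact Or.inl ((hZm _).2 (Or.inr (Or.inr (Or.inl ⟨x, hc, (mem_Mw_out j γ c x hc).1 hx, rfl⟩))))
    · by_cases hc : cl y.1 = j
      · obtain ⟨y', rfl⟩ := exists_yin j y hc
        exact Or.inr (Or.inr ⟨y', (yin_mem j γ c y').1 hy, rfl⟩)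
      · exact Or.inl ((hZm _).2 (Or.inr (Or.inr (Or.inr ⟨y, hc, (mem_Yw_out j γ c y hc).1 hy, rfl⟩))))
    · exact Or.inl ((hZm _).2 (Or.inr (Or.inl ⟨x, hx, rfl⟩)))
  have hch2 : ∀ c e, (e ∈ Z' ∨ (∃ x, e = X (xin j x)) ∨ ∃ y ∈ Yw c, e = Y (yin j y)) →
      e ∈ chain X Y Z (comb j γ c) (j.1 + 1) := by
    intro c e he
    rw [mem_chain]
    rcases he with h | ⟨x, rfl⟩ | ⟨y, hy, rfl⟩
    · rcases (hZm e).1 h with h | ⟨x, hx, rfl⟩ | ⟨x, hx1, hx2, rfl⟩ | ⟨y, hy1, hy2, rfl⟩
      · exact Or.inl h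
      · exact Or.inr (Or.inr (Or.inr ⟨x, by omega, rfl⟩))
      · exact Or.inr (Or.inl ⟨x, (mem_Mw_out j γ c x hx1).2 hx2, rfl⟩)
      · exact Or.inr (Or.inr (Or.inl ⟨y, (mem_Yw_out j γ c y hy1).2 hy2, rfl⟩))
    · exact Or.inr (Or.inr (Or.inr ⟨xin j x, by rw [cl_xin]; omega, rfl⟩))
    · exact Or.inr (Or.inr (Or.inl ⟨yin j y, (yin_mem j γ c y).2 hy, rfl⟩))
  have hmain := Pool.RT.core_det (C := Wd D l) g (fun x => X (xin j x)) (fun y => Y (yin j y)) Z'
    (by
      intro a b hab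
      rcases a with a | a <;> rcases b with b | b
      · simp only [Sum.elim_inl] at hab
        rw [xin_inj j (hinjX hab)]
      · exact absurd hab (hXY _ _)
      · exact absurd hab.symm (hXY _ _)
      · simp only [Sum.elim_inr] at hab
        rw [yin_inj j (hinjY hab)])
    (by
      intro x hx
      rcases (hZm _).1 hx with h | ⟨x', hx', h⟩ | ⟨x', hx', _, h⟩ | ⟨y, _, _, h⟩
      · exact hX _ h
      · rw [← hinjX h, cl_xin] at hx'
        omega
      · rw [← hinjX h, cl_xin] at hx'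
        exact hx' rfl
      · exact hXY _ _ h)
    (by
      intro y hy
      rcases (hZm _).1 hy with h | ⟨x', hx', h⟩ | ⟨x', hx', _, h⟩ | ⟨y', hy', _, h⟩
      · exact hY _ h
      · exact hXY _ _ h.symm
      · exact hXY _ _ h.symm
      · rw [← hinjY h, cl_yin] at hy'
        exact hy' rfl)
    (fun c => (Mw B c).filter fun x => (t ω).eval (ans (f ω)
      (chain X Y Z (comb j γ c) (j.1 + 1) \ {X (xin j x)})) ≠ true)
    (fun c => Mw B c) G2 μ (fun c hc => (hμ c hc).1)
    (by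
      intro c hc e he
      rcases hch1 c e ((hμ c hc).2 he) with h | h | ⟨y, _, h⟩
      · exact Or.inl h
      · exact Or.inr (Or.inl h)
      · exact Or.inr (Or.inr ⟨y, h⟩))
    (by
      intro c hc S hS hall x hx
      by_contra hxS
      refine (Finset.mem_filter.1 hx).2 ?_
      refine hgout c hc (chain X Y Z (comb j γ c) (j.1 + 1) \ {X (xin j x)})
        Finset.sdiff_subset ?_
      refine restr_ne_mono g ?_ hS
      intro e he
      rw [Finset.mem_sdiff, Finset.mem_singleton]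
      refine ⟨hch2 c e ?_, fun h => hxS (h ▸ he)⟩
      rcases hall e he with h | h | ⟨y, h, hy⟩
      · exact Or.inl h
      · exact Or.inr (Or.inl h)
      · refine Or.inr (Or.inr ⟨y, ?_, h⟩)
        have h2 : e ∈ CDET.sup (μ c) := by
          rw [CDET.sup, Finset.mem_filter, h]
          exact ⟨Finset.mem_univ _, hy⟩
        rcases hch1 c e ((hμ c hc).2 h2) with h4 | ⟨x', _, h4⟩ | ⟨y', hy', h4⟩
        · exfalso
          rcases (hZm _).1 h4 with h5 | ⟨x', _, h5⟩ | ⟨x', _, _, h5⟩ | ⟨y', hy', _, h5⟩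
          · exact hY _ (h ▸ h5)
          · exact hXY _ _ (h5.symm.trans h)
          · exact hXY _ _ (h5.symm.trans h)
          · rw [← hinjY (h.symm.trans h5), cl_yin] at hy'
            exact hy' rfl
        · exact absurd (h4.symm.trans h) (hXY _ _)
        · rw [yin_inj j (hinjY (h.symm.trans h4))]
          exact hy')
    L
    (by
      intro c hc
      have h3 : ∀ y, μ c (Sum.inl (Y (yin j y))) ≠ 0 → y ∈ Yw c := by
        intro y hy
        have h2 : Y (yin j y) ∈ CDET.sup (μ c) := by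
          rw [CDET.sup, Finset.mem_filter]
          exact ⟨Finset.mem_univ _, hy⟩
        rcases hch1 c _ ((hμ c hc).2 h2) with h4 | ⟨x', _, h4⟩ | ⟨y', hy', h4⟩
        · exfalso
          rcases (hZm _).1 h4 with h5 | ⟨x', _, h5⟩ | ⟨x', _, _, h5⟩ | ⟨y', hy', _, h5⟩
          · exact hY _ h5
          · exact hXY _ _ h5.symm
          · exact hXY _ _ h5.symm
          · rw [← hinjY h5, cl_yin] at hy'
            exact hy' rfl
        · exact absurd h4.symm (hXY _ _)
        · rw [yin_inj j (hinjY h4)]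
          exact hy'
      calc ∑ y, μ c (Sum.inl (Y (yin j y))) = ∑ y ∈ Yw c, μ c (Sum.inl (Y (yin j y))) := by
            symm
            refine Finset.sum_subset (Finset.subset_univ _) fun y _ hy => ?_
            by_contra h4
            exact hy (h3 y h4)
        _ ≤ ∑ _y ∈ Yw c, lam * h := by
            refine Finset.sum_le_sum fun y _ => ?_
            exact (prod_deg (f ω) lam (hlam ω) U (μ c) (hμ c hc).1 _).trans
              (Nat.mul_le_mul_left _ hUh')
        _ = D * (lam * h) := by rw [Finset.sum_const, card_Yw, smul_eq_mul]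
        _ ≤ L := hL)
    (fun c c' => hamd c c' < τ)
    (by
      intro c
      by_contra h3
      push Not at h3
      rw [hamd_self] at h3
      have hτ0 : τ = 0 := by omega
      rw [hτ0] at hτ
      have h4 : (0 : ℝ) < β * (2 * D * l * B) := by
        have : (0 : ℝ) < 2 * D * l * B := by
          have : 0 < 2 * D * l * B := by positivity
          exact_mod_cast this
        positivity
      have h5 : (0 : ℝ) ≤ T0 := Nat.cast_nonneg _
      simp at hτ
      linarith)
    (fun c c' h => by rw [hamd_comm]; exact h)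
    (∑ j ∈ Finset.range τ, (2 * D * l).choose j) T0
    (fun c _ A _ hA => ball_le c A hA)
    (by
      intro c _ c' hc' hfar
      push Not at hfar
      have h3 := (hGood _ (hG2G c' hc')).2.2
      rw [hcardz] at h3
      have h4 : ((Mw B c').filter fun x => (t ω).eval (ans (f ω)
          (chain X Y Z (comb j γ c') (j.1 + 1) \ {X (xin j x)})) = true).card ≤
          (Finset.univ.filter fun z => (t ω).eval (ans (f ω)
          (chain X Y Z (comb j γ c') (j.1 + 1) \ {X (xe j (comb j γ c') z)})) = true).card := by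
        refine Finset.card_le_card_of_injOn (fun x => (x.1, x.2.2)) ?_ ?_
        · intro x hx
          rw [Finset.mem_coe, Finset.mem_filter] at hx
          rw [Finset.mem_coe, Finset.mem_filter]
          refine ⟨Finset.mem_univ _, ?_⟩
          have h5 : xe j (comb j γ c') (x.1, x.2.2) = xin j x := by
            rw [hxe, cellOf_comb]
            have h6 := (mem_Mw c' x).1 hx.1
            simp only
            rw [← h6]
          rw [h5]
          exact hx.2
        · intro x hx x' hx' hxx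
          rw [Finset.mem_coe, Finset.mem_filter] at hx hx'
          have h6 := (mem_Mw c' x).1 hx.1
          have h7 := (mem_Mw c' x').1 hx'.1
          simp only [Prod.mk.injEq] at hxx
          obtain ⟨x1, x2, x3⟩ := x
          obtain ⟨y1, y2, y3⟩ := x'
          simp only at hxx h6 h7
          rw [hxx.1, hxx.2, h6, h7, hxx.1]
      have h5 : (Mw B c' \ Mw B c).card ≤
          (((Mw B c').filter fun x => (t ω).eval (ans (f ω)
            (chain X Y Z (comb j γ c') (j.1 + 1) \ {X (xin j x)})) ≠ true) \ Mw B c).card +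
          ((Mw B c').filter fun x => (t ω).eval (ans (f ω)
            (chain X Y Z (comb j γ c') (j.1 + 1) \ {X (xin j x)})) = true).card := by
        rw [← Nat.sub_le_iff_le_add]
        refine (Finset.le_card_sdiff _ _).trans (Finset.card_le_card ?_)
        intro x hx
        simp only [Finset.mem_sdiff, Finset.mem_filter, not_and] at hx ⊢
        exact ⟨⟨hx.1.1, hx.2 hx.1.1⟩, hx.1.2⟩
      rw [card_sdiff_Mw] at h5
      have h6 : ((hamd c c' * B : ℕ) : ℝ) ≤
          ((((Mw B c').filter fun x => (t ω).eval (ans (f ω)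
            (chain X Y Z (comb j γ c') (j.1 + 1) \ {X (xin j x)})) ≠ true) \ Mw B c).card : ℝ) +
          (((Mw B c').filter fun x => (t ω).eval (ans (f ω)
            (chain X Y Z (comb j γ c') (j.1 + 1) \ {X (xin j x)})) = true).card : ℝ) := by
        exact_mod_cast h5
      have h7 : (τ : ℝ) * B ≤ ((hamd c c' * B : ℕ) : ℝ) := by
        have : τ * B ≤ hamd c c' * B := Nat.mul_le_mul_right _ hfar
        exact_mod_cast this
      have h8 : (((Mw B c').filter fun x => (t ω).eval (ans (f ω)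
          (chain X Y Z (comb j γ c') (j.1 + 1) \ {X (xin j x)})) = true).card : ℝ) ≤
          ((Finset.univ.filter fun z => (t ω).eval (ans (f ω)
          (chain X Y Z (comb j γ c') (j.1 + 1) \ {X (xe j (comb j γ c') z)})) = true).card : ℝ) := by
        exact_mod_cast h4
      have h9 : (β * ((2 * D * l * B : ℕ) : ℝ)) = β * (2 * D * l * B) := by
        push_cast
        ring
      have h10 : (T0 : ℝ) ≤ ((((Mw B c').filter fun x => (t ω).eval (ans (f ω)
            (chain X Y Z (comb j γ c') (j.1 + 1) \ {X (xin j x)})) ≠ true) \ Mw B c).card : ℝ) := by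
        linarith
      exact_mod_cast h10)
    (l0 := l0) (R := R) hQ (fun D' hD' => hR ω U hUh' D' hD')
    (by
      refine le_trans ?_ hT0
      gcongr
      have h3 : G2.card ≤ Fintype.card (Wd D l) := Finset.card_le_univ _
      have h4 : (Fintype.card (Wd D l) : ℝ≥0∞) = 2 ^ (2 * D * l) := by
        rw [Fintype.card_fun, Fintype.card_fun, Fintype.card_prod, Fintype.card_bool,
          Fintype.card_fin, Fintype.card_fin, ← pow_mul]
        push_cast
        congr 1
        ring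
      rw [← h4]
      exact Nat.cast_le.2 h3)
  calc Q ^ l0 * ENNReal.ofReal ((1 - (ε1 + ε2 / β + N / J)) * 2 ^ (2 * D * l))
      ≤ Q ^ l0 * ((((N + 1) ^ h * G2.card : ℕ) : ℝ≥0∞)) := by
        gcongr
        rw [← ENNReal.ofReal_natCast]
        exact ENNReal.ofReal_le_ofReal hcard1
    _ = (((N + 1) ^ h : ℕ) : ℝ≥0∞) * (Q ^ l0 * (G2.card : ℝ≥0∞)) := by
        rw [Nat.cast_mul]
        ring
    _ ≤ (((N + 1) ^ h : ℕ) : ℝ≥0∞) * (2 * R * ((L + 1) * ∑ j ∈ Finset.range τ,
          (2 * D * l).choose j : ℕ)) := by gcongr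
    _ = _ := by
        rw [Nat.cast_mul ((N + 1) ^ h)]
        ring

end

end Pool.AD
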